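import Pool.Agent.W294.MZ.ExStmts
import Pool.Agent.W368.MZ.K4

/-!
# MP_aa8fd2_nt, part EX-H2: finiteness of the 2-Selmer group of a number field
-/

set_option autoImplicit false

namespace Pool.Agent.W978.MZH2

open NumberField IsDedekindDomain MZ Pool.Agent.TeamU

theorem even_log {x : WithZero (Multiplicative ℤ)} (hx : x ≠ 0) (h : IsSquare x) :
    x = WithZero.exp (WithZero.log x / 2) ^ 2 := by
  obtain ⟨r, hr⟩ := h
  have hr0 : r ≠ 0 := by
    rintro rfl
    rw [zero_mul] at hr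
    exact hx hr
  rw [hr, WithZero.log_mul hr0 hr0, ← two_mul, Int.mul_ediv_cancel_left _ two_ne_zero,
    WithZero.exp_log hr0, sq]

theorem exists_decomp {M : Type} [Field M] [NumberField M]
    (T : Finset (HeightOneSpectrum (𝓞 M))) (hT : ClTriv T)
    (a : M) (ha : a ≠ 0) (hev : ∀ v ∉ T, IsSquare (v.valuation M a)) :
    ∃ (b : Mˣ) (u : Mˣ), u ∈ SU T ∧ a = b ^ 2 * u := by
  have h1 : ∀ v : HeightOneSpectrum (𝓞 M), v ∉ T →
      v.valuation M a = WithZero.exp (WithZero.log (v.valuation M a) / 2) ^ 2 := by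
    intro v hv
    exact even_log ((Valuation.ne_zero_iff _).2 ha) (hev v hv)
  obtain ⟨α, hα⟩ := exists_of_clTriv hT (fun v => WithZero.log (v.valuation M a) / 2) (by
    refine (finite_valuation_ne_one a ha).subset ?_
    rintro v ⟨_, hv⟩
    change v.valuation M a ≠ 1
    intro h
    apply hv
    have h0 : WithZero.log (v.valuation M a) / 2 = 0 := by
      rw [h, WithZero.log_one]
      rfl
    exact h0)
  refine ⟨α, (Units.mk0 a ha) / α ^ 2, ?_, ?_⟩
  · intro v hv
    rw [Units.val_div_eq_div_val, Units.val_pow_eq_pow_val, Units.val_mk0, map_div₀, map_pow,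
      hα v hv, ← h1 v hv]
    exact div_self ((Valuation.ne_zero_iff _).2 ha)
  · rw [Units.val_div_eq_div_val, Units.val_pow_eq_pow_val, Units.val_mk0]
    field_simp

/-- EX-H2. -/
theorem stmExH2 : MZEX.StmExH2 := by
  intro M _ _ T hTf
  classical
  obtain ⟨T', hTT', hT'⟩ := exists_clTriv hTf.toFinset
  have hidx := Pool.Agent.W368.MZK4.index_ne_zero (M := M) T'
  set R := (powMonoidHom 2 : SU T' →* SU T').range with hR
  have hfin : Finite (SU T' ⧸ R) := by
    have : R.FiniteIndex := ⟨hidx⟩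
    exact Subgroup.finite_quotient_of_finiteIndex
  refine ⟨Set.range (fun q : SU T' ⧸ R => (((Quotient.out q : SU T') : Mˣ) : M)),
    Set.finite_range _, ?_⟩
  intro a ha hev
  obtain ⟨b, u, hu, hab⟩ := exists_decomp T' hT' a ha (fun v hv => hev v (fun h =>
    hv (hTT' (hTf.mem_toFinset.2 h))))
  have hq : (QuotientGroup.mk (Quotient.out (QuotientGroup.mk (s := R) (⟨u, hu⟩ : SU T'))) :
      SU T' ⧸ R) = QuotientGroup.mk (⟨u, hu⟩ : SU T') := Quotient.out_eq _
  rw [QuotientGroup.eq] at hq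
  obtain ⟨w, hw⟩ := hq
  have hw2 : (u : M) = (((Quotient.out (QuotientGroup.mk (s := R) (⟨u, hu⟩ : SU T')) : SU T') :
      Mˣ) : M) * (((w : SU T') : Mˣ) : M) ^ 2 := by
    have h3 : (⟨u, hu⟩ : SU T') =
        (Quotient.out (QuotientGroup.mk (s := R) (⟨u, hu⟩ : SU T')) : SU T') * w ^ 2 := by
      change w ^ 2 = _ at hw
      rw [hw]
      group
    have h4 := congrArg (fun z : SU T' => ((z : Mˣ) : M)) h3
    simpa using h4
  refine ⟨_, ⟨QuotientGroup.mk (s := R) (⟨u, hu⟩ : SU T'), rfl⟩,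
    ((w : SU T') : Mˣ) * (b : M), ?_, ?_⟩
  · exact mul_ne_zero (Units.ne_zero _) b.ne_zero
  · rw [hab, hw2]
    ring

end Pool.Agent.W978.MZH2
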